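import Mathlib
import Pool.Agent.H.MP_6065fc_lc.B

namespace Pool.Agent.Results.MP_6065fc_lc.No

open FirstOrder Pool.Agent.H.MP_6065fc_lc

theorem result : ∃ (L : FirstOrder.Language.{0, 0}) (_ : L.IsRelational) (_ : Finite L.Symbols)
    (B : Type) (_ : L.Structure B) (_ : Countable B) (_ : Infinite B),
    L.IsUltrahomogeneous B ∧ Stubborn L B ∧
    ∃ (L' : FirstOrder.Language.{0, 0}) (_ : L'.IsRelational) (_ : L'.Structure B), Reduct L B L' ∧
    ∃ (C : Type) (_ : L'.Structure C), MCCore L' C ∧ Nonempty (B →[L'] C) ∧ Nonempty (C →[L'] B) ∧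
      Nat.card C = 2 ∧ ¬ Stubborn L' C ∧
      ∃ (L2 : FirstOrder.Language.{0, 0}) (_ : L2.IsRelational) (_ : Finite L2.Symbols) (D : Type)
        (_ : L2.Structure D), Finite D ∧ Nonempty D ∧ ¬ PPC L' C L2 D :=
  ⟨L0, inferInstance, fin0, ℕ, inferInstance, inferInstance, inferInstance, uh, stub,
    L0, inferInstance, inferInstance, self _ _, Bool, inferInstance, mcB, h1, h2, by simp,
    fun h => nppc (h L0 (self _ _) (self _ _) mcB L2 Bool inferInstance inferInstance),
    L2, inferInstance, fin2, Bool, inferInstance, inferInstance, inferInstance, nppc⟩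

end Pool.Agent.Results.MP_6065fc_lc.No
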